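import Pool.Agent.helper24.ISL.Spec

/-!
Row isl:PIG: a power of `g` is congruent to `1` modulo `m` outside `S`.
-/

set_option autoImplicit false

namespace Pool.Agent.ISL

open Matrix

/-- the ring of rational numbers that are integral outside `S` -/
def PIG_R (S : Set ℕ) : Subring ℚ where
  carrier := {x | Dv S 1 x}
  mul_mem' := by
    intro x y hx hy
    have h := Dv.mul hx hy
    rw [mul_one] at h
    exact h
  one_mem' := by
    have h := Dv.int (S := S) 1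
    rw [Int.cast_one] at h
    exact h
  add_mem' := fun hx hy => hx.add hy
  zero_mem' := Dv.zero
  neg_mem' := fun hx => hx.neg

theorem PIG_R_mem {S : Set ℕ} {x : ℚ} : x ∈ PIG_R S ↔ Dv S 1 x := Iff.rfl

theorem PIG_mul {S : Set ℕ} {m : ℕ} {x y : ℚ} (hx : Dv S 1 x) (hy : Dv S m y) : Dv S m (x * y) := by
  have h := Dv.mul hx hy
  rwa [one_mul] at h

/-- the denominator of an element of the ring is a unit there -/
theorem PIG_den {S : Set ℕ} {x : ℚ} (hx : Dv S 1 x) {q : ℕ} (hq : q.Prime) (hS : q ∉ S) :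
    padicNorm q (x.den : ℚ) = 1 := by
  have : Fact q.Prime := ⟨hq⟩
  rcases (padicNorm.of_nat (p := q) x.den).lt_or_eq with h | h
  · exfalso
    have h1 : q ∣ x.den := (padicNorm.nat_lt_one_iff x.den).1 h
    have h2 : ¬ (q : ℤ) ∣ x.num := by
      intro h2
      have h3 : q ∣ x.num.natAbs := Int.natCast_dvd.1 h2
      have h4 : q ∣ 1 := by
        rw [← x.reduced]
        exact Nat.dvd_gcd h3 h1
      exact hq.one_lt.ne' (Nat.dvd_one.1 h4)
    have h5 : padicNorm q (x.num : ℚ) = 1 := (padicNorm.int_eq_one_iff x.num).2 h2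
    have h6 := hx q hq hS
    rw [Nat.cast_one, padicNorm.one] at h6
    have h7 : (x.num : ℚ) = x * x.den := (Rat.mul_den_eq_num x).symm
    have h8 : padicNorm q (x.num : ℚ) = padicNorm q x * padicNorm q (x.den : ℚ) := by
      rw [h7, padicNorm.mul]
    have h9 : padicNorm q x * padicNorm q (x.den : ℚ) ≤ 1 * padicNorm q (x.den : ℚ) :=
      mul_le_mul_of_nonneg_right h6 (padicNorm.nonneg _)
    rw [one_mul] at h9
    linarith
  · exact h

/-- every element is congruent to a natural number less than `m` -/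
theorem PIG_res {S : Set ℕ} {m : ℕ} (hm : 0 < m) {x : ℚ} (hx : Dv S 1 x) :
    ∃ r : Fin m, Dv S m (x - ((r : ℕ) : ℚ)) := by
  have : NeZero m := ⟨hm.ne'⟩
  obtain ⟨i, j, hij, h⟩ : ∃ i j : ℕ, i < j ∧ ((x.den : ZMod m) ^ i = (x.den : ZMod m) ^ j) := by
    obtain ⟨i, j, hij, h⟩ := Finite.exists_ne_map_eq_of_infinite (fun k : ℕ => (x.den : ZMod m) ^ k)
    rcases Nat.lt_or_gt_of_ne hij with h1 | h1
    · exact ⟨i, j, h1, h⟩
    · exact ⟨j, i, h1, h.symm⟩
  obtain ⟨k, rfl⟩ : ∃ k, j = i + (k + 1) := ⟨j - i - 1, by omega⟩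
  -- `b ^ (k + 1) - 1` is divisible by `m`
  have h1 : Dv S m ((x.den : ℚ) ^ (k + 1) - 1) := by
    have h2 : (m : ℤ) ∣ (x.den : ℤ) ^ (i + (k + 1)) - (x.den : ℤ) ^ i := by
      rw [← ZMod.intCast_eq_intCast_iff_dvd_sub]
      push_cast
      exact h
    obtain ⟨c, hc⟩ := h2
    have h3 : (x.den : ℚ) ^ i * ((x.den : ℚ) ^ (k + 1) - 1) = (m : ℚ) * (c : ℚ) := by
      have h4 : (((x.den : ℤ) ^ (i + (k + 1)) - (x.den : ℤ) ^ i : ℤ) : ℚ) = ((m * c : ℤ) : ℚ) := by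
        rw [hc]
      push_cast at h4
      rw [← h4]
      ring
    intro q hq hS
    have : Fact q.Prime := ⟨hq⟩
    have h5 : padicNorm q ((x.den : ℚ) ^ i * ((x.den : ℚ) ^ (k + 1) - 1)) =
        padicNorm q ((x.den : ℚ) ^ (k + 1) - 1) := by
      rw [padicNorm.mul]
      have h6 : padicNorm q ((x.den : ℚ) ^ i) = 1 := by
        have h7 : ∀ t : ℕ, padicNorm q ((x.den : ℚ) ^ t) = 1 := by
          intro t
          induction t with
          | zero => simp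
          | succ t ih => rw [pow_succ, padicNorm.mul, ih, PIG_den hx hq hS, one_mul]
        exact h7 i
      rw [h6, one_mul]
    rw [← h5, h3, padicNorm.mul]
    calc padicNorm q (m : ℚ) * padicNorm q (c : ℚ) ≤ padicNorm q (m : ℚ) * 1 :=
          mul_le_mul_of_nonneg_left (padicNorm.of_int c) (padicNorm.nonneg _)
      _ = padicNorm q (m : ℚ) := mul_one _
  -- `x = a / b` is congruent to `a b ^ k`
  have h2 : Dv S m (x - ((x.num * (x.den : ℤ) ^ k : ℤ) : ℚ)) := by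
    have h3 : x - ((x.num * (x.den : ℤ) ^ k : ℤ) : ℚ) = x * (-((x.den : ℚ) ^ (k + 1) - 1)) := by
      push_cast
      have h4 : (x.num : ℚ) = x * x.den := (Rat.mul_den_eq_num x).symm
      rw [h4]
      ring
    rw [h3]
    exact PIG_mul hx h1.neg
  have hm' : (0 : ℤ) < (m : ℤ) := by exact_mod_cast hm
  set a : ℤ := x.num * (x.den : ℤ) ^ k with ha
  have h4 : 0 ≤ a % (m : ℤ) := Int.emod_nonneg _ hm'.ne'
  have h5 : a % (m : ℤ) < m := Int.emod_lt_of_pos _ hm'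
  have h6 : (a % (m : ℤ)).toNat < m := by omega
  refine ⟨⟨(a % (m : ℤ)).toNat, h6⟩, ?_⟩
  have h7 : (((a % (m : ℤ)).toNat : ℕ) : ℚ) = ((a % (m : ℤ) : ℤ) : ℚ) := by
    have h8 : (((a % (m : ℤ)).toNat : ℕ) : ℤ) = a % (m : ℤ) := Int.toNat_of_nonneg h4
    exact_mod_cast congrArg (fun t : ℤ => (t : ℚ)) h8
  show Dv S m (x - (((a % (m : ℤ)).toNat : ℕ) : ℚ))
  rw [h7]
  have h8 : x - ((a % (m : ℤ) : ℤ) : ℚ) = (x - (a : ℚ)) + ((a / (m : ℤ) : ℤ) : ℚ) * (m : ℚ) := by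
    have h9 : ((a % (m : ℤ) : ℤ) : ℚ) = (a : ℚ) - (m : ℚ) * ((a / (m : ℤ) : ℤ) : ℚ) := by
      rw [Int.emod_def]
      push_cast
      ring
    rw [h9]
    ring
  rw [h8]
  apply h2.add
  apply PIG_mul (Dv.int _)
  have h10 := Dv.nat_mul (S := S) m 1
  rw [Nat.cast_one, mul_one] at h10
  exact h10

theorem PIG : PIG_stmt := by
  intro n S g hg m hm
  -- lift `g` to the ring
  let M : Matrix (Fin n) (Fin n) (PIG_R S) := fun i j => ⟨g i j, hg i j⟩
  have hM : M.map (PIG_R S).subtype = (g : Mat n ℚ) := by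
    ext i j
    rfl
  have hdet : M.det = 1 := by
    apply (PIG_R S).subtype_injective
    rw [RingHom.map_det, map_one]
    have h1 : (PIG_R S).subtype.mapMatrix M = (g : Mat n ℚ) := hM
    rw [h1]
    exact g.2
  let γ : Matrix.SpecialLinearGroup (Fin n) (PIG_R S) := ⟨M, hdet⟩
  have hγ : Matrix.SpecialLinearGroup.map (PIG_R S).subtype γ = g := by
    ext i j
    rfl
  have hpow : ∀ k : ℕ, ∀ i j, Dv S 1 ((g ^ k) i j) := by
    intro k i j
    have h1 : g ^ k = Matrix.SpecialLinearGroup.map (PIG_R S).subtype (γ ^ k) := by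
      rw [map_pow, hγ]
    rw [h1]
    exact ((γ ^ k) i j).2
  have hinv : ∀ k : ℕ, ∀ i j, Dv S 1 (((g ^ k)⁻¹ : SL n ℚ) i j) := by
    intro k i j
    have h1 : (g ^ k)⁻¹ = Matrix.SpecialLinearGroup.map (PIG_R S).subtype ((γ ^ k)⁻¹) := by
      rw [map_inv, map_pow, hγ]
    rw [h1]
    exact (((γ ^ k)⁻¹ : Matrix.SpecialLinearGroup (Fin n) (PIG_R S)) i j).2
  have hres : ∀ k : ℕ, ∀ i j, ∃ r : Fin m, Dv S m ((g ^ k) i j - ((r : ℕ) : ℚ)) :=
    fun k i j => PIG_res hm (hpow k i j)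
  choose r hr using hres
  obtain ⟨k, k', hk, h⟩ : ∃ k k' : ℕ, k < k' ∧ r k = r k' := by
    obtain ⟨i, j, hij, h⟩ := Finite.exists_ne_map_eq_of_infinite r
    rcases Nat.lt_or_gt_of_ne hij with h1 | h1
    · exact ⟨i, j, h1, h⟩
    · exact ⟨j, i, h1, h.symm⟩
  obtain ⟨t, rfl⟩ : ∃ t, k' = k + t := ⟨k' - k, by omega⟩
  refine ⟨t, by omega, fun i j => ?_⟩
  have h1 : (g ^ t : SL n ℚ) = (g ^ k)⁻¹ * g ^ (k + t) := by
    rw [pow_add]
    group
  have h2 : ((g ^ t : SL n ℚ) : Mat n ℚ) - 1 =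
      (((g ^ k)⁻¹ : SL n ℚ) : Mat n ℚ) * (((g ^ (k + t) : SL n ℚ) : Mat n ℚ) - ((g ^ k : SL n ℚ) : Mat n ℚ)) := by
    rw [mul_sub, ← Matrix.SpecialLinearGroup.coe_mul, ← Matrix.SpecialLinearGroup.coe_mul, ← h1,
      inv_mul_cancel, Matrix.SpecialLinearGroup.coe_one]
  have h3 : (g ^ t) i j - (1 : Mat n ℚ) i j = (((g ^ t : SL n ℚ) : Mat n ℚ) - 1) i j := rfl
  rw [h3, h2, Matrix.mul_apply]
  apply Dv.sum
  intro s _
  apply PIG_mul (hinv k i s)
  have h4 := (hr (k + t) s j).sub (hr k s j)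
  rw [← h] at h4
  have h5 : (g ^ (k + t)) s j - (((r k s j : Fin m) : ℕ) : ℚ) - ((g ^ k) s j - (((r k s j : Fin m) : ℕ) : ℚ)) =
      (((g ^ (k + t) : SL n ℚ) : Mat n ℚ) - ((g ^ k : SL n ℚ) : Mat n ℚ)) s j := by
    rw [Matrix.sub_apply]
    ring
  rw [← h5]
  exact h4

end Pool.Agent.ISL
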